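import Pool.Agent.Helper4.ZH.Zh
import Pool.Agent.Helper55.INV.Irw
import Pool.Agent.Helper77.TPX.Row

/-! [ZOOMH] without hypotheses. -/

set_option autoImplicit false

namespace Pool.Agent.Helper4.ZH

/-- **[ZOOMH]** -/
theorem zoomh_all (M : ℕ) : Pool.Agent.Helper29.HX.ZOOMH M :=
  zoomh (Pool.Agent.Helper55.INV.invrw M) (Pool.Agent.Helper77.TPX.topf M)

end Pool.Agent.Helper4.ZH
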