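import Pool.Agent.Helper29.HX.St
import Pool.Agent.Helper63.ZMX.Zmx
import Pool.Agent.Helper94.SEL.Jnt
import Pool.Agent.Helper48.ROK.Numj
import Pool.Agent.Helper18.TRF.Cmp
import Pool.Agent.Helper7.RD.Pf
import Pool.Agent.Helper4.FRK.Mk

/-! [ZOOMH] of Helper29/HX/St: zooms of the members of `LL` over least carriers, in flag rows. The rows are the rows of the
frame of the least carrier (helper29): triangular, slopes exactly `2 ^ (w j c n)`. -/

set_option autoImplicit false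

namespace Pool.Agent.Helper4.ZH

open Finset Filter Topology Matrix Pool.Agent.Helper69.RK Pool.Agent.Helper31.EC Pool.Agent.Helper31.EC.Sp
open Pool.Agent.Helper40.EL Pool.Agent.Helper89.LX Pool.Agent.Helper84.MT
open Pool.Agent.Helper49.MD Pool.Agent.Helper36.AM
open Pool.Agent.Helper7.GZ Pool.Agent.Helper7.RD
open Pool.Agent.Helper29.MX Pool.Agent.Helper29.HX
open Pool.Agent.Helper94.SEL
open Pool.Agent.Helper63.ZMX (INVRW bk_zoom)
open Pool.Agent.Helper48.ROK (wof_ge wsm_wof wsm_all)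

noncomputable section

variable {S : Sp} {N M : ℕ} {E : ℕ → ℕ} {ι : Type}

/-- THE DEEP ZOOM IN THE ROWS OF A FRAME over a literal K-label -/
theorem exists_frw {s : MSys S N E ι} {R : Rsl S} {c u : ℝ} {X : Rsl S} {La : Fin N → ℝ} (hc : 0 < c) (hu : 0 < u)
    (hcu : c + u ≤ 1) (hl : KLb s R c (Lab.ofZ X)) (f : Frm s.Q (Lab.ofZ X) La) (h0 : ∀ j, 0 ≤ La j)
    (hLa : ∀ j, La j + u ≤ 1) {d : ℕ} (hd : ∀ k ω j, (f.P k ω j).totalDegree ≤ d) {κ : ℕ} (h1 : 1 ≤ κ)
    (hκ : ∀ i, (s.lf i).e ≤ κ) (hΛ : 1 ≤ c * (κ + 1)) :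
    ∃ z : RW s N, z.Z.l = Lab.ofZ X ∧ z.Z.c = c ∧ z.Z.u = u ∧ z.κ = κ ∧ Flg z La ∧
      (Pt s R → Pt z.sys (rover z.Z.l z.Z.u z.Z.hu R)) := by
  have hΛ' : ∀ j, La j ≤ 1 - u := fun j => by
    have := hLa j
    linarith
  refine ⟨Pool.Agent.Helper4.FRK.mkRW hc hu hcu hl (frows f hd h0 hu.le hLa hΛ') h1 hκ (by linarith), rfl, rfl, rfl,
    rfl, ⟨?_, ?_⟩, fun hR => Pool.Agent.Helper4.FRK.mkRW_pt hc hu hcu hl _ h1 hκ (by linarith) hR⟩
  · intro k ω j i hi
    classical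
    have h1 : i ∈ (MvPolynomial.C (S.dl (La j) k)⁻¹ * inv (f.P k ω) j).vars := hi
    rcases Finset.mem_union.1 (MvPolynomial.vars_mul _ _ h1) with h2 | h2
    · rw [MvPolynomial.vars_C] at h2
      simp at h2
    · exact inv_vars (f.tri k ω) N j j.2 i h2
  · intro e he
    refine (Typ_true (S := (Lab.ofZ X).sp)).mono (Eventually.of_forall fun k ω _ _ j => ?_)
    have h2 : ∀ x : Fin N → ℝ, MvPolynomial.eval x (MvPolynomial.pderiv j (MvPolynomial.C (S.dl (La j) k)⁻¹ *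
        inv (f.P k ω) j)) = 2 ^ (La j * (S.F k).n) := fun x => by
      rw [MvPolynomial.pderiv_C_mul, map_mul, MvPolynomial.eval_C, pderiv_inv (f.tri k ω) N j j.2 j le_rfl, if_pos rfl,
        map_one, mul_one, dl_inv_eq]
    have h3 : MvPolynomial.eval (s.Q.v k (((Lab.ofZ X : Lab S) k).p.π ω)) (MvPolynomial.pderiv j (frow f k ω j)) =
        2 ^ (La j * (S.F k).n) := h2 _
    have h4 := (S.F k).pos
    show 2 ^ ((La j - e) * (S.F k).n) ≤ |MvPolynomial.eval (s.Q.v k (((Lab.ofZ X : Lab S) k).p.π ω))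
      (MvPolynomial.pderiv j (frow f k ω j))| ∧ |MvPolynomial.eval (s.Q.v k (((Lab.ofZ X : Lab S) k).p.π ω))
      (MvPolynomial.pderiv j (frow f k ω j))| ≤ 2 ^ ((La j + e) * (S.F k).n)
    rw [h3, abs_of_pos (by positivity)]
    constructor
    · apply Real.rpow_le_rpow_of_exponent_le (by norm_num)
      nlinarith
    · apply Real.rpow_le_rpow_of_exponent_le (by norm_num)
      nlinarith

theorem spd_nonneg {a : ℕ → ℝ} {W : ℝ} (ha : Spd M a W) : ∀ j, j ≤ M + 1 → 0 ≤ a j := by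
  intro j
  induction j with
  | zero => intro _; rw [ha.zero]
  | succ j ih =>
    intro hj
    have h9 := ha.step j (Nat.le_of_succ_le_succ hj)
    have h10 := ih (Nat.le_of_succ_le hj)
    linarith

theorem spd_mono {a : ℕ → ℝ} {W : ℝ} (ha : Spd M a W) {i : ℕ} : ∀ j, i ≤ j → j ≤ M + 1 → a i ≤ a j := by
  intro j hij
  induction j, hij using Nat.le_induction with
  | base => intro _; exact le_rfl
  | succ j _ ih =>
    intro hj
    have h9 := ha.step j (Nat.le_of_succ_le_succ hj)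
    have h10 := ih (Nat.le_of_succ_le hj)
    linarith

theorem wof_le {a : ℕ → ℝ} {W : ℝ} (ha : Spd M a W) (i : Fin (M + 1)) : wof M a i ≤ W := by
  have h1 := spd_mono ha (i := i.val + 1) (M + 1) (Nat.succ_le_of_lt i.2) le_rfl
  have h2 := spd_nonneg ha i.val i.2.le
  have h3 : wof M a i = a (i.val + 1) - a i.val := rfl
  have h4 := ha.tot
  linarith

/-- **ZOOMS OF THE MEMBERS OF `LL` OVER LEAST CARRIERS** -/
theorem zoomh (hI : INVRW M) (hF : TOPF M) : ZOOMH M := by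
  have hN : NUMX M := Pool.Agent.Helper84.SEL.numx M
  intro A C v ctx m g r e0 P W a hW ha S s R h c u hc hu hwu h2 X hX
  obtain ⟨f⟩ := hX.fr
  have hw := wof_ge ha
  have hd := P.La_d
  have hd0 := P.d_pos
  have hd1 := P.d_lt_one
  have hld := P.l_le_d
  have hcl : c < P.l := by nlinarith [mul_pos hu hd0]
  have hcu : c + u ≤ 1 := by
    have h3 := hwu 0
    have h4 := hw 0
    nlinarith
  have hdg : ∀ k ω j, (f.P k ω j).totalDegree ≤ ⌈W⌉₊ :=
    Pool.Agent.Helper18.TRF.frm_deg0 f hc.le hw fun j => (wof_le ha j).trans (Nat.le_ceil W)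
  have hL0 : ∀ j, 0 ≤ wof M a j * c := fun j => mul_nonneg (by linarith [hw j]) hc.le
  obtain ⟨hcC, hPt, hinv⟩ := h.ke.bk.cl
  obtain ⟨κ, hκ⟩ : ∃ κ : ℕ, κ = max (max 1 e0) ⌈1 / c⌉₊ := ⟨_, rfl⟩
  have hκ1 : 1 ≤ κ := by
    rw [hκ]
    exact (le_max_left _ _).trans (le_max_left _ _)
  have hκ2 : ∀ i, (s.lf i).e ≤ κ := fun i => by
    rw [hκ]
    exact (h.ke.bk.dim i).trans ((le_max_right _ _).trans (le_max_left _ _))
  have hκ3 : 1 ≤ c * (κ + 1) := by
    have h3 : 1 / c ≤ (κ : ℝ) := (Nat.le_ceil _).trans (by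
      rw [hκ]
      exact_mod_cast le_max_right _ _)
    rw [div_le_iff₀ hc] at h3
    nlinarith
  obtain ⟨z0, hl0, hc0, hu0, -, hf0, hp0⟩ := exists_frw hc hu hcu hX.kl f hL0 hwu hdg hκ1 hκ2 hκ3
  have hlm : lmd s R c = fun j : Fin (M + 1) => wof M a j * c := by
    funext j
    unfold lmd
    rw [h.num c hc.le hcl _ (Nat.succ_le_of_lt j.2), h.num c hc.le hcl _ j.2.le]
    show a (j.val + 1) * c - a j.val * c = (a (j.val + 1) - a j.val) * c
    ring
  have hO : OptLam z0 R fun j => wof M a j * c := by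
    refine Or.inl fun j => ?_
    rw [hc0]
    have h3 := congrFun hlm j
    show wof M a j * c = _
    rw [← show lmd s R c j = wof M a j * c from h3]
    unfold lmd num
    push_cast
    ring
  have hK0 : KLb s R z0.Z.c z0.Z.l := by
    rw [hc0, hl0]
    exact hX.kl
  obtain ⟨D1, h4⟩ := ctx.ok.zoom m g r z0.D
  obtain ⟨z, V, hV, hle, hnl, hzc, hzu, -, hK, hf, hC, hpt, -⟩ :=
    h4 S s hcC R hPt z0 (fun j => wof M a j * c) X le_rfl hl0 hK0 hf0 hO
  have ec : z.Z.c = c := hzc.trans hc0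
  have eu : z.Z.u = u := hzu.trans hu0
  have hpz := hpt (hp0 hPt)
  have hK' : KLb s R z.Z.c z.Z.l := by
    rw [ec, ← hc0]
    exact hK
  have hf' : Flg z (lmd s R z.Z.c) := by
    rw [ec, hlm]
    exact hf
  have hx : ∀ b : ℝ, 0 ≤ b → b < P.d → c + u * b < P.l ∧ tot s R (c + u * b) < tot s R c + u := by
    intro b hb hbl
    have h3 : c + u * b < P.l := by
      have : u * b < u * P.d := by nlinarith
      nlinarith
    refine ⟨h3, ?_⟩
    rw [h.tot hN ha (by positivity) h3, h.tot hN ha hc.le hcl]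
    have h4 : W * b < 1 := by
      have h5 : W * b ≤ P.La * b := by nlinarith
      nlinarith [P.La1]
    nlinarith
  have hx' : ∀ b : ℝ, 0 ≤ b → b < P.d →
      z.Z.c + z.Z.u * b < P.l ∧ tot s R (z.Z.c + z.Z.u * b) < tot s R z.Z.c + z.Z.u := by
    rw [ec, eu]
    exact hx
  obtain ⟨hb, hn⟩ := bk_zoom ctx.st h.ke.bk hV hK' hf' hpz hC
    (hI v S g r s R hinv hPt z V (by rw [ec]; exact hc) hV hK' hf' hpz) hd0 hd1.le hx'
  have hnum : ∀ b : ℝ, 0 ≤ b → b < P.l → ∀ (j : ℕ) (hj : j ≤ M + 1),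
      num z.sys (rover z.Z.l z.Z.u z.Z.hu R) hj b = a j * b := by
    intro b hb hbl j hj
    rw [hn b hb (hbl.trans_le hld) j hj, ec, eu, h.num _ (by positivity) (hx b hb (hbl.trans_le hld)).1 j hj,
      h.num c hc.le hcl j hj]
    field_simp
    ring
  refine ⟨z, V, hV, ec, eu, hle, hnl, ec ▸ hK', hf, ⟨⟨hb.mono hld, ?_, ?_⟩, hnum⟩⟩
  · intro x x' h0 hcc hl
    rw [← hN.last, ← hN.last, hnum x h0 (hcc.trans_lt hl) _ le_rfl, hnum x' (h0.trans hcc) hl _ le_rfl, ha.tot]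
    nlinarith
  · have h5 := hF A C v ctx m g r e0 P.l S s R h.ke.bk P.ρ c u P.d hc hu hd0 hd1.le hx z ⟨V, hV⟩ hpz ec eu (ec ▸ hK')
      (ec ▸ hf') 0 le_rfl fun T q B hB x y hx0 hxy hy => by
        refine h.ke.top T q B hB x y hx0 hxy (hy.trans ?_)
        rw [hlm]
        have h6 : wof M a (Fin.last M) * c ≤ P.La * c :=
          mul_le_mul_of_nonneg_right ((wof_le ha _).trans hW) hc.le
        have h7 : P.La * c + u * P.d ≤ P.d := by
          have h8 : P.La * (c + u * P.d) ≤ P.La * P.l := mul_le_mul_of_nonneg_left h2 (by linarith [P.La1])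
          have h9 : P.La * P.l = P.d := rfl
          have h10 : u * P.d ≤ P.La * (u * P.d) := by nlinarith [P.La1, mul_pos hu hd0]
          nlinarith
        show wof M a (Fin.last M) * c + u * P.d ≤ P.d
        linarith
    rw [zero_div] at h5
    exact h5

end

end Pool.Agent.Helper4.ZH
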